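import Pool.Agent.TH602.Lines.Branch

/-!
# Sets without full lines in a coordinate direction: local sets and absorbing operations
-/

set_option autoImplicit false
set_option linter.unusedSectionVars false
set_option linter.unusedVariables false

namespace Pool.Agent.TH602.Lines

open Finset

variable {ι Q : Type*} [Fintype ι] [DecidableEq ι] [Fintype Q] [DecidableEq Q]

/-- `A` contains a word together with all words which differ from it only in one fixed
coordinate. -/
def AxisLine (A : Finset (ι → Q)) : Prop :=
  ∃ (x : ι → Q) (i : ι), ∀ v : Q, Function.update x i v ∈ A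

/-- `A` is determined by its projections onto at most `m` coordinates. -/
def LocalSet (m : ℕ) (A : Finset (ι → Q)) : Prop :=
  ∀ x : ι → Q, (∀ I : Finset ι, I.card ≤ m → ∃ a ∈ A, ∀ i ∈ I, a i = x i) → x ∈ A

/-- `A` is closed under coordinatewise `r`-ary idempotent operations `f j`, each of which has an
absorbing element `o j`: the value is `o j` as soon as all but one of the entries are `o j`. -/
def Absorbing (r : ℕ) (A : Finset (ι → Q)) : Prop :=
  ∃ (f : ι → (Fin r → Q) → Q) (o : ι → Q),
    (∀ j a, f j (fun _ => a) = a) ∧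
    (∀ j, ∀ (s : Fin r) (a : Fin r → Q), (∀ t, t ≠ s → a t = o j) → f j a = o j) ∧
    (∀ X : Fin r → (ι → Q), (∀ s, X s ∈ A) → (fun j => f j (fun s => X s j)) ∈ A)

/-- A set which realises all patterns on few coordinates of `S` (the other coordinates being fixed
by `x`) and is local contains all words that agree with `x` outside `S`. -/
lemma local_full (A : Finset (ι → Q)) (m : ℕ) (hm : 1 ≤ m) (hA : LocalSet m A)
    (S : Finset ι) (x : ι → Q) (hS : S.Nonempty)
    (hcon : ∀ I ⊆ S, I.Nonempty → I.card ≤ m → ∀ y : ι → Q,
      ∃ z ∈ A, (∀ i, i ∉ S → z i = x i) ∧ ∀ i ∈ I, z i = y i) :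
    ∀ z : ι → Q, (∀ i, i ∉ S → z i = x i) → z ∈ A := by
  obtain ⟨i0, hi0⟩ := hS
  intro z hz
  apply hA
  intro J hJ
  by_cases hne : (J ∩ S).Nonempty
  · obtain ⟨a, haA, ha1, ha2⟩ := hcon (J ∩ S) Finset.inter_subset_right hne
      ((Finset.card_le_card Finset.inter_subset_left).trans hJ) z
    refine ⟨a, haA, fun i hi => ?_⟩
    by_cases hiS : i ∈ S
    · exact ha2 i (Finset.mem_inter.2 ⟨hi, hiS⟩)
    · rw [ha1 i hiS, hz i hiS]
  · obtain ⟨a, haA, ha1, -⟩ := hcon {i0} (Finset.singleton_subset_iff.2 hi0)
      (Finset.singleton_nonempty _) (by simpa using hm) z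
    refine ⟨a, haA, fun i hi => ?_⟩
    have hiS : i ∉ S := by
      intro h
      exact hne ⟨i, Finset.mem_inter.2 ⟨hi, h⟩⟩
    rw [ha1 i hiS, hz i hiS]

/-- A set closed under operations with absorbing elements `o i` which realises all patterns on few
coordinates of `S` contains the words with an arbitrary letter at one place of `S` and the letters
`o i` at the other places of `S`. -/
lemma absorbing_line (A : Finset (ι → Q)) (r : ℕ) (hr : 1 ≤ r) (f : ι → (Fin r → Q) → Q)
    (o : ι → Q) (hid : ∀ j a, f j (fun _ => a) = a)
    (hab : ∀ j, ∀ (s : Fin r) (a : Fin r → Q), (∀ t, t ≠ s → a t = o j) → f j a = o j)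
    (hcl : ∀ X : Fin r → (ι → Q), (∀ s, X s ∈ A) → (fun j => f j (fun s => X s j)) ∈ A)
    (S : Finset ι) (x : ι → Q)
    (hcon : ∀ I ⊆ S, I.Nonempty → I.card ≤ r → ∀ y : ι → Q,
      ∃ z ∈ A, (∀ i, i ∉ S → z i = x i) ∧ ∀ i ∈ I, z i = y i) (i0 : ι) (hi0 : i0 ∈ S) (v : Q) :
    Function.update (fun i => if i ∈ S then o i else x i) i0 v ∈ A := by
  -- the letters `o i` on arbitrary sets of coordinates
  have key : ∀ (N : ℕ) (J : Finset ι), J.card = N → J ⊆ S.erase i0 →
      ∃ z ∈ A, (∀ i, i ∉ S → z i = x i) ∧ z i0 = v ∧ ∀ j ∈ J, z j = o j := by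
    intro N
    induction N with
    | zero =>
      intro J hJ _
      rw [Finset.card_eq_zero] at hJ
      subst hJ
      obtain ⟨a, haA, ha1, ha2⟩ := hcon {i0} (Finset.singleton_subset_iff.2 hi0)
        (Finset.singleton_nonempty _) (by simpa using hr) (fun _ => v)
      exact ⟨a, haA, ha1, ha2 i0 (Finset.mem_singleton_self _), by simp⟩
    | succ N ih =>
      intro J hJ hJS
      have hi0J : i0 ∉ J := fun h => (Finset.mem_erase.1 (hJS h)).1 rfl
      by_cases hlt : N + 1 < r
      · -- directly from the projections
        obtain ⟨a, haA, ha1, ha2⟩ := hcon (insert i0 J)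
          (by
            intro i hi
            rcases Finset.mem_insert.1 hi with rfl | h
            · exact hi0
            · exact Finset.mem_of_mem_erase (hJS h))
          (Finset.insert_nonempty _ _)
          (by rw [Finset.card_insert_of_notMem hi0J, hJ]; omega)
          (fun i => if i = i0 then v else o i)
        refine ⟨a, haA, ha1, ?_, ?_⟩
        · rw [ha2 i0 (Finset.mem_insert_self _ _)]
          simp
        · intro j hj
          rw [ha2 j (Finset.mem_insert_of_mem hj)]
          have : j ≠ i0 := by
            rintro rfl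
            exact hi0J hj
          simp [this]
      · -- absorb
        have hle : r ≤ J.card := by omega
        obtain ⟨T, hTJ, hT⟩ := Finset.exists_subset_card_eq hle
        let e : Fin r ≃ T := (Finset.equivFinOfCardEq hT).symm
        have hZ : ∀ s : Fin r, ∃ z ∈ A, (∀ i, i ∉ S → z i = x i) ∧ z i0 = v ∧
            ∀ j ∈ J.erase (e s : ι), z j = o j := by
          intro s
          apply ih (J.erase (e s : ι))
          · rw [Finset.card_erase_of_mem (hTJ (e s).2), hJ]
            omega
          · exact (Finset.erase_subset _ _).trans hJS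
        choose Z hZA hZ1 hZ2 hZ3 using hZ
        refine ⟨_, hcl Z hZA, ?_, ?_, ?_⟩
        · intro i hi
          have : (fun s => Z s i) = fun _ => x i := by
            funext s
            exact hZ1 s i hi
          simp only [this, hid]
        · have : (fun s => Z s i0) = fun _ => v := by
            funext s
            exact hZ2 s
          simp only [this, hid]
        · intro j hj
          by_cases hjT : j ∈ T
          · apply hab j (e.symm ⟨j, hjT⟩)
            intro t ht
            apply hZ3 t
            refine Finset.mem_erase.2 ⟨?_, hj⟩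
            intro h
            apply ht
            apply e.injective
            rw [Equiv.apply_symm_apply]
            exact Subtype.ext h.symm
          · have : (fun s => Z s j) = fun _ => o j := by
              funext s
              apply hZ3 s
              refine Finset.mem_erase.2 ⟨?_, hj⟩
              rintro rfl
              exact hjT (e s).2
            simp only [this, hid]
  obtain ⟨z, hzA, hz1, hz2, hz3⟩ := key _ (S.erase i0) rfl (Finset.Subset.refl _)
  have : z = Function.update (fun i => if i ∈ S then o i else x i) i0 v := by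
    funext i
    by_cases hi : i = i0
    · subst hi
      rw [Function.update_self, hz2]
    · rw [Function.update_of_ne hi]
      by_cases hiS : i ∈ S
      · rw [if_pos hiS, hz3 i (Finset.mem_erase.2 ⟨hi, hiS⟩)]
      · rw [if_neg hiS, hz1 i hiS]
  rw [← this]
  exact hzA

/-- The intersection of an `m`-local set and a set closed under `r`-ary operations with absorbing
elements, if it contains no full line in a coordinate direction. -/
theorem inter_card (B C : Finset (ι → Q)) (m r : ℕ) (hr : 1 ≤ r) (hrm : r ≤ m)
    (hq : 1 ≤ Fintype.card Q) (hB : LocalSet m B) (hC : Absorbing r C)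
    (hl : ¬ AxisLine (B ∩ C)) :
    (B ∩ C).card ^ m ≤ (Fintype.card Q ^ m - 1) ^ Fintype.card ι := by
  obtain ⟨f, o, hid, hab, hcl⟩ := hC
  apply card_pow_le (B ∩ C) m hq
  intro S x hS
  by_contra hcon
  push Not at hcon
  obtain ⟨i0, hi0⟩ := id hS
  have h1 := local_full B m (hr.trans hrm) hB S x hS (by
    intro I hIS hI hIm y
    obtain ⟨z, hz, hz1, hz2⟩ := hcon I hIS hI hIm y
    exact ⟨z, (Finset.mem_inter.1 hz).1, hz1, hz2⟩)
  apply hl
  refine ⟨fun i => if i ∈ S then o i else x i, i0, fun v => Finset.mem_inter.2 ⟨?_, ?_⟩⟩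
  · apply h1
    intro i hi
    have : i ≠ i0 := by
      rintro rfl
      exact hi hi0
    rw [Function.update_of_ne this, if_neg hi]
  · apply absorbing_line C r hr f o hid hab hcl S x _ i0 hi0 v
    intro I hIS hI hIm y
    obtain ⟨z, hz, hz1, hz2⟩ := hcon I hIS hI (hIm.trans hrm) y
    exact ⟨z, (Finset.mem_inter.1 hz).2, hz1, hz2⟩

theorem local_card (A : Finset (ι → Q)) (m : ℕ) (hm : 1 ≤ m) (hq : 1 ≤ Fintype.card Q)
    (hA : LocalSet m A) (hl : ¬ AxisLine A) :
    A.card ^ m ≤ (Fintype.card Q ^ m - 1) ^ Fintype.card ι := by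
  apply card_pow_le A m hq
  intro S x hS
  by_contra hcon
  push Not at hcon
  obtain ⟨i0, hi0⟩ := id hS
  have h1 := local_full A m hm hA S x hS hcon
  apply hl
  refine ⟨x, i0, fun v => h1 _ fun i hi => ?_⟩
  rw [Function.update_of_ne]
  rintro rfl
  exact hi hi0

end Pool.Agent.TH602.Lines
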