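import Mathlib.Data.Fintype.BigOperators
import Mathlib.Algebra.Order.BigOperators.Ring.Finset
import Mathlib.Tactic

/-!
# Counting words of which every section misses a pattern on few coordinates
-/

set_option autoImplicit false

namespace Pool.Agent.TH602.Lines

open Finset

set_option linter.unusedSectionVars false
set_option linter.unusedVariables false

variable {ι Q : Type*} [Fintype ι] [DecidableEq ι] [Fintype Q] [DecidableEq Q]

/-- the members of `A` which agree with `x` outside `S` -/
def sect (A : Finset (ι → Q)) (S : Finset ι) (x : ι → Q) : Finset (ι → Q) :=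
  A.filter (fun z => ∀ i, i ∉ S → z i = x i)

/-- the words `x` with the entries on `I` replaced by those of `w` -/
def glue (I : Finset ι) (x w : ι → Q) : ι → Q := fun i => if i ∈ I then w i else x i

lemma mem_sect {A : Finset (ι → Q)} {S : Finset ι} {x z : ι → Q} :
    z ∈ sect A S x ↔ z ∈ A ∧ ∀ i, i ∉ S → z i = x i := by
  simp [sect]

lemma sect_card_le_one (A : Finset (ι → Q)) (x : ι → Q) : (sect A ∅ x).card ≤ 1 := by
  rw [Finset.card_le_one]
  intro a ha b hb
  rw [mem_sect] at ha hb
  funext i
  rw [ha.2 i (by simp), hb.2 i (by simp)]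

/-- branching on the entries on `I` -/
lemma card_branch (A : Finset (ι → Q)) (S I : Finset ι) (hI : I ⊆ S) (x y : ι → Q)
    (hy : ∀ z ∈ A, (∀ i, i ∉ S → z i = x i) → ¬ ∀ i ∈ I, z i = y i) (K : ℕ)
    (hK : ∀ w : ι → Q, (sect A (S \ I) w).card ≤ K) :
    (sect A S x).card ≤ (Fintype.card Q ^ I.card - 1) * K := by
  classical
  -- patterns on `I`
  let P : Finset (I → Q) := Finset.univ.erase (fun i => y i)
  have hP : P.card = Fintype.card Q ^ I.card - 1 := by
    rw [Finset.card_erase_of_mem (Finset.mem_univ _), Finset.card_univ, Fintype.card_fun,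
      Fintype.card_coe]
  have hmap : ∀ z ∈ sect A S x, (fun i : I => z i) ∈ P := by
    intro z hz
    rw [mem_sect] at hz
    refine Finset.mem_erase.2 ⟨?_, Finset.mem_univ _⟩
    intro h
    apply hy z hz.1 hz.2
    intro i hi
    exact congrFun h ⟨i, hi⟩
  have := Finset.card_le_mul_card_image_of_maps_to (s := sect A S x) (t := P)
    (f := fun z => (fun i : I => z i)) hmap K ?_
  · rw [hP] at this
    rw [mul_comm]
    exact this
  · intro u _
    refine le_trans (Finset.card_le_card ?_) (hK (fun i => if h : i ∈ I then u ⟨i, h⟩ else x i))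
    intro z hz
    rw [Finset.mem_filter, mem_sect] at hz
    rw [mem_sect]
    refine ⟨hz.1.1, ?_⟩
    intro i hi
    by_cases h : i ∈ I
    · simp only [h, dif_pos]
      exact congrFun hz.2 ⟨i, h⟩
    · simp only [h, dif_neg, not_false_eq_true]
      apply hz.1.2
      intro hS
      exact hi (Finset.mem_sdiff.2 ⟨hS, h⟩)

lemma pow_sub_one_pow_le (q s M : ℕ) (hq : 1 ≤ q) (hs : s ≤ M) :
    (q ^ s - 1) ^ M ≤ (q ^ M - 1) ^ s := by
  obtain ⟨t, rfl⟩ : ∃ t, M = s + t := ⟨M - s, by omega⟩
  have h1 : 1 ≤ q ^ s := Nat.one_le_pow _ _ hq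
  have h2 : 1 ≤ q ^ t := Nat.one_le_pow _ _ hq
  -- `(q^s - 1) (q^t)`-type comparison
  have h3 : (q ^ s - 1) * q ^ t ≤ q ^ (s + t) - 1 := by
    rw [Nat.sub_mul, pow_add, one_mul]
    omega
  calc (q ^ s - 1) ^ (s + t) = (q ^ s - 1) ^ s * (q ^ s - 1) ^ t := by rw [pow_add]
    _ ≤ (q ^ s - 1) ^ s * (q ^ s) ^ t := by
        gcongr
        exact Nat.sub_le _ _
    _ = ((q ^ s - 1) * q ^ t) ^ s := by
        rw [mul_pow, ← pow_mul, ← pow_mul, mul_comm s t]
    _ ≤ (q ^ (s + t) - 1) ^ s := Nat.pow_le_pow_left h3 s

/-- If every section (with at least one free coordinate) of `A` misses some pattern on a nonempty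
set of at most `M` free coordinates, then `|A|^M ≤ (q^M - 1)^n`. -/
theorem card_pow_le (A : Finset (ι → Q)) (M : ℕ) (hq : 1 ≤ Fintype.card Q)
    (H : ∀ (S : Finset ι) (x : ι → Q), S.Nonempty → ∃ I ⊆ S, I.Nonempty ∧ I.card ≤ M ∧
      ∃ y : ι → Q, ∀ z ∈ A, (∀ i, i ∉ S → z i = x i) → ¬ ∀ i ∈ I, z i = y i) :
    A.card ^ M ≤ (Fintype.card Q ^ M - 1) ^ Fintype.card ι := by
  classical
  have key : ∀ (N : ℕ) (S : Finset ι), S.card = N → ∀ x : ι → Q,
      (sect A S x).card ^ M ≤ (Fintype.card Q ^ M - 1) ^ N := by
    intro N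
    induction N using Nat.strong_induction_on with
    | _ N ih =>
      intro S hS x
      rcases Nat.eq_zero_or_pos N with h0 | h0
      · subst h0
        rw [Finset.card_eq_zero] at hS
        subst hS
        have := sect_card_le_one A x
        calc (sect A ∅ x).card ^ M ≤ 1 ^ M := Nat.pow_le_pow_left this M
          _ = (Fintype.card Q ^ M - 1) ^ 0 := by simp
      · have hne : S.Nonempty := by
          rw [← Finset.card_pos]; omega
        obtain ⟨I, hIS, hIne, hIM, y, hy⟩ := H S x hne
        have hIpos : 0 < I.card := hIne.card_pos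
        have hIle : I.card ≤ S.card := Finset.card_le_card hIS
        have hsd : (S \ I).card = N - I.card := by
          rw [Finset.card_sdiff_of_subset hIS, hS]
        -- the largest section over `S \ I`
        obtain ⟨w0, -, hw0⟩ := Finset.exists_max_image (Finset.univ : Finset (ι → Q))
          (fun w => (sect A (S \ I) w).card) ⟨x, Finset.mem_univ _⟩
        have h1 := card_branch A S I hIS x y hy ((sect A (S \ I) w0).card)
          (fun w => hw0 w (Finset.mem_univ _))
        have h2 := ih (N - I.card) (by omega) (S \ I) hsd w0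
        calc (sect A S x).card ^ M
            ≤ ((Fintype.card Q ^ I.card - 1) * (sect A (S \ I) w0).card) ^ M :=
              Nat.pow_le_pow_left h1 M
          _ = (Fintype.card Q ^ I.card - 1) ^ M * (sect A (S \ I) w0).card ^ M := by
              rw [mul_pow]
          _ ≤ (Fintype.card Q ^ M - 1) ^ I.card * (Fintype.card Q ^ M - 1) ^ (N - I.card) :=
              Nat.mul_le_mul (pow_sub_one_pow_le _ _ _ hq hIM) h2
          _ = (Fintype.card Q ^ M - 1) ^ N := by
              rw [← pow_add]
              congr 1
              omega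
  rcases A.eq_empty_or_nonempty with rfl | ⟨x, hx⟩
  · rcases Nat.eq_zero_or_pos M with hM | hM
    · subst hM
      -- then there is no free coordinate
      by_cases hι : (Finset.univ : Finset ι).Nonempty
      · by_cases hne : Nonempty (ι → Q)
        · obtain ⟨x⟩ := hne
          obtain ⟨I, _, hIne, hI0, _⟩ := H Finset.univ x hι
          have := hIne.card_pos
          omega
        · exfalso
          apply hne
          have : Nonempty Q := Fintype.card_pos_iff.1 hq
          exact ⟨fun _ => this.some⟩
      · rw [Finset.not_nonempty_iff_eq_empty] at hι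
        have : Fintype.card ι = 0 := by
          rw [← Finset.card_univ, hι, Finset.card_empty]
        rw [this]
        simp
    · simp [Nat.pos_iff_ne_zero.1 hM]
  · have h := key (Fintype.card ι) Finset.univ Finset.card_univ x
    have h2 : sect A Finset.univ x = A := by
      ext z
      simp [mem_sect]
    rw [h2] at h
    exact h

end Pool.Agent.TH602.Lines
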