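import Mathlib.Combinatorics.Additive.Corner.Roth
import Mathlib.Algebra.BigOperators.Fin
import Mathlib.Logic.Equiv.Fin.Basic
import Mathlib.Tactic

/-!
# Three-term progressions and read-once programs on the digits
-/

set_option autoImplicit false
set_option linter.unusedSectionVars false
set_option linter.unusedVariables false

namespace Pool.Agent.TH602.Digits

open Finset

variable {b n w : ℕ}

/-- the integer with the digits `x 0, x 1, …` (least significant first) -/
def val {n : ℕ} (x : Fin n → Fin b) : ℕ := ∑ i, (x i : ℕ) * b ^ (i : ℕ)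

lemma val_eq (x : Fin n → Fin b) : val x = (finFunctionFinEquiv x : ℕ) := by
  rw [finFunctionFinEquiv_apply, val]

lemma val_lt (x : Fin n → Fin b) : val x < b ^ n := by
  rw [val_eq]
  exact (finFunctionFinEquiv x).2

lemma val_injective : Function.Injective (val : (Fin n → Fin b) → ℕ) := by
  intro x y h
  rw [val_eq, val_eq] at h
  exact finFunctionFinEquiv.injective (Fin.ext h)

/-- the places `t * L, …, t * L + L - 1` -/
def place (L t : ℕ) (h : t * L + L ≤ n) : Fin L ↪ Fin n :=
  ⟨fun i => ⟨t * L + i, by have := i.2; omega⟩, fun i j hij => by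
    have : t * L + (i : ℕ) = t * L + j := congrArg Fin.val hij
    exact Fin.ext (by omega)⟩

/-- replacing a block of digits -/
noncomputable def repl (L t : ℕ) (h : t * L + L ≤ n) (x : Fin n → Fin b) (v : Fin L → Fin b) : Fin n → Fin b :=
  Function.extend (place L t h) v x

lemma repl_place (L t : ℕ) (h : t * L + L ≤ n) (x : Fin n → Fin b) (v : Fin L → Fin b)
    (i : Fin L) : repl L t h x v (place L t h i) = v i :=
  (place L t h).injective.extend_apply v x i

lemma repl_off (L t : ℕ) (h : t * L + L ≤ n) (x : Fin n → Fin b) (v : Fin L → Fin b)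
    (j : Fin n) (hj : ¬ ∃ i, place L t h i = j) : repl L t h x v j = x j :=
  Function.extend_apply' _ _ _ hj

lemma val_repl (L t : ℕ) (h : t * L + L ≤ n) (x : Fin n → Fin b) :
    ∃ C : ℕ, ∀ v : Fin L → Fin b, val (repl L t h x v) = C + b ^ (t * L) * val v := by
  classical
  refine ⟨∑ j ∈ (Finset.univ.map (place L t h))ᶜ, (x j : ℕ) * b ^ (j : ℕ), fun v => ?_⟩
  have h1 := (Finset.sum_add_sum_compl (Finset.univ.map (place L t h))
    (fun j : Fin n => ((repl L t h x v j : Fin b) : ℕ) * b ^ (j : ℕ))).symm
  have h2 : ∑ j ∈ (Finset.univ.map (place L t h))ᶜ,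
      ((repl L t h x v j : Fin b) : ℕ) * b ^ (j : ℕ) =
      ∑ j ∈ (Finset.univ.map (place L t h))ᶜ, (x j : ℕ) * b ^ (j : ℕ) := by
    apply Finset.sum_congr rfl
    intro j hj
    rw [repl_off]
    rintro ⟨i, hi⟩
    apply Finset.mem_compl.1 hj
    exact Finset.mem_map.2 ⟨i, Finset.mem_univ _, hi⟩
  have h3 : ∑ j ∈ Finset.univ.map (place L t h),
      ((repl L t h x v j : Fin b) : ℕ) * b ^ (j : ℕ) = b ^ (t * L) * val v := by
    rw [Finset.sum_map, val, Finset.mul_sum]
    apply Finset.sum_congr rfl
    intro i _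
    rw [repl_place]
    have : ((place L t h i : Fin n) : ℕ) = t * L + i := rfl
    rw [this, pow_add]
    ring
  rw [val, h1, h2, h3]
  ring

/-- The digits of `x` are accepted along the path of states `s`. -/
def Path (step : ℕ → Fin w → ℕ → Fin w → Prop) (x : Fin n → Fin b) (s : ℕ → Fin w) : Prop :=
  ∀ j : Fin n, step j (s j) (x j) (s (j + 1))

/-- replacing a block by the block of another word with the same states at the ends -/
lemma path_repl (step : ℕ → Fin w → ℕ → Fin w → Prop) (L t : ℕ) (h : t * L + L ≤ n)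
    (x y : Fin n → Fin b) (s s' : ℕ → Fin w) (hx : Path step x s) (hy : Path step y s')
    (h0 : s (t * L) = s' (t * L)) (h1 : s (t * L + L) = s' (t * L + L)) :
    ∃ s'' : ℕ → Fin w, s'' 0 = s 0 ∧ s'' n = s n ∧
      Path step (repl L t h x (fun i => y (place L t h i))) s'' := by
  refine ⟨fun j => if t * L ≤ j ∧ j ≤ t * L + L then s' j else s j, ?_, ?_, ?_⟩
  · by_cases h2 : t * L ≤ 0 ∧ 0 ≤ t * L + L
    · have h3 : t * L = 0 := by omega
      simp only [h2, and_self, if_true]
      rw [← h3, ← h0]
    · simp only [h2, if_false]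
  · by_cases h2 : t * L ≤ n ∧ n ≤ t * L + L
    · have h3 : n = t * L + L := by omega
      simp only [h2, and_self, if_true]
      rw [h3, h1]
    · simp only [h2, if_false]
  · intro j
    have e1 : (if t * L ≤ (j : ℕ) ∧ (j : ℕ) ≤ t * L + L then s' j else s j) =
        if t * L ≤ (j : ℕ) ∧ (j : ℕ) < t * L + L then s' j else s j := by
      by_cases h2 : t * L ≤ (j : ℕ) ∧ (j : ℕ) < t * L + L
      · rw [if_pos h2, if_pos (by omega)]
      · rw [if_neg h2]
        by_cases h3 : t * L ≤ (j : ℕ) ∧ (j : ℕ) ≤ t * L + L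
        · rw [if_pos h3]
          have : (j : ℕ) = t * L + L := by omega
          rw [this, h1]
        · rw [if_neg h3]
    have e2 : (if t * L ≤ (j : ℕ) + 1 ∧ (j : ℕ) + 1 ≤ t * L + L then s' (j + 1) else s (j + 1)) =
        if t * L ≤ (j : ℕ) ∧ (j : ℕ) < t * L + L then s' (j + 1) else s (j + 1) := by
      by_cases h2 : t * L ≤ (j : ℕ) ∧ (j : ℕ) < t * L + L
      · rw [if_pos h2, if_pos (by omega)]
      · rw [if_neg h2]
        by_cases h3 : t * L ≤ (j : ℕ) + 1 ∧ (j : ℕ) + 1 ≤ t * L + L
        · rw [if_pos h3]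
          have : (j : ℕ) + 1 = t * L := by omega
          rw [this, h0]
        · rw [if_neg h3]
    simp only [e1, e2]
    by_cases h2 : t * L ≤ (j : ℕ) ∧ (j : ℕ) < t * L + L
    · simp only [h2, and_self, if_true]
      have hj : place L t h ⟨(j : ℕ) - t * L, by omega⟩ = j := by
        apply Fin.ext
        show t * L + ((j : ℕ) - t * L) = j
        omega
      have h3 : repl L t h x (fun i => y (place L t h i)) j = y j := by
        conv_lhs => rw [← hj]
        rw [repl_place, hj]
      rw [h3]
      exact hy j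
    · simp only [h2, if_false]
      rw [repl_off]
      · exact hx j
      · rintro ⟨i, hi⟩
        apply h2
        have h3 : t * L + (i : ℕ) = j := congrArg Fin.val hi
        have := i.2
        omega

/-- **The bound.** -/
theorem card_le (A : Finset (Fin n → Fin b)) (start accept : Fin w → Prop)
    (step : ℕ → Fin w → ℕ → Fin w → Prop)
    (hA : ∀ x, x ∈ A ↔ ∃ s : ℕ → Fin w, start (s 0) ∧ accept (s n) ∧ Path step x s)
    (hfree : ThreeAPFree ((A.image val : Finset ℕ) : Set ℕ)) (hb : 1 ≤ b) (L : ℕ) (hL : 1 ≤ L) :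
    A.card ≤ w * (w * rothNumberNat (b ^ L)) ^ (n / L) * b ^ (n % L) := by
  classical
  have hblk : ∀ t : Fin (n / L), (t : ℕ) * L + L ≤ n := by
    intro t
    have h1 := t.2
    have h2 : ((t : ℕ) + 1) * L ≤ n / L * L := Nat.mul_le_mul_right L h1
    have h3 := Nat.div_mul_le_self n L
    have h4 : ((t : ℕ) + 1) * L = t * L + L := by ring
    omega
  rcases A.eq_empty_or_nonempty with rfl | ⟨x0, hx0⟩
  · simp
  obtain ⟨s0, -, -, -⟩ := (hA x0).1 hx0
  have : Nonempty (ℕ → Fin w) := ⟨s0⟩
  have hA' : ∀ x ∈ A, ∃ s : ℕ → Fin w, start (s 0) ∧ accept (s n) ∧ Path step x s :=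
    fun x hx => (hA x).1 hx
  choose! s hs0 hsn hs using hA'
  -- the states at the ends of the blocks
  let σ : (Fin n → Fin b) → (Fin (n / L + 1) → Fin w) := fun x k => s x ((k : ℕ) * L)
  have hmain : ∀ τ ∈ (Finset.univ : Finset (Fin (n / L + 1) → Fin w)),
      (A.filter (fun x => σ x = τ)).card ≤ rothNumberNat (b ^ L) ^ (n / L) * b ^ (n % L) := by
    intro τ _
    -- the words of the block `t`
    let W : (t : Fin (n / L)) → Finset (Fin L → Fin b) := fun t =>
      (A.filter (fun x => σ x = τ)).image (fun x i => x (place L t (hblk t) i))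
    have hW : ∀ t, (W t).card ≤ rothNumberNat (b ^ L) := by
      intro t
      rw [← Finset.card_image_of_injective (W t) (val_injective (b := b) (n := L))]
      refine ThreeAPFree.le_rothNumberNat _ ?_ ?_ rfl
      · intro a ha c hc d hd hacd
        simp only [Finset.coe_image, Set.mem_image, Finset.mem_coe] at ha hc hd
        obtain ⟨u, hu, rfl⟩ := ha
        obtain ⟨v, hv, rfl⟩ := hc
        obtain ⟨z, hz, rfl⟩ := hd
        simp only [W, Finset.mem_image, Finset.mem_filter] at hu hv hz
        obtain ⟨x, ⟨hxA, hxσ⟩, rfl⟩ := hu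
        obtain ⟨y, ⟨hyA, hyσ⟩, rfl⟩ := hv
        obtain ⟨q, ⟨hqA, hqσ⟩, rfl⟩ := hz
        obtain ⟨C, hC⟩ := val_repl L t (hblk t) x
        have hmem : ∀ g ∈ A, σ g = τ →
            repl L t (hblk t) x (fun i => g (place L t (hblk t) i)) ∈ A := by
          intro g hg hgσ
          have e0 : s x ((t : ℕ) * L) = s g ((t : ℕ) * L) := by
            have := congrFun (hxσ.trans hgσ.symm) ⟨t, by have := t.2; omega⟩
            exact this
          have e1 : s x ((t : ℕ) * L + L) = s g ((t : ℕ) * L + L) := by
            have := congrFun (hxσ.trans hgσ.symm) ⟨(t : ℕ) + 1, by have := t.2; omega⟩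
            simp only [σ] at this
            have h4 : ((t : ℕ) + 1) * L = t * L + L := by ring
            rwa [h4] at this
          obtain ⟨s'', h0, hn', hp⟩ := path_repl step L t (hblk t) x g (s x) (s g) (hs x hxA)
            (hs g hg) e0 e1
          rw [hA]
          exact ⟨s'', by rw [h0]; exact hs0 x hxA, by rw [hn']; exact hsn x hxA, hp⟩
        have h1 := hmem x hxA hxσ
        have h2 := hmem y hyA hyσ
        have h3 := hmem q hqA hqσ
        have hbL : 0 < b ^ ((t : ℕ) * L) := Nat.pow_pos hb
        have h4 := hfree (Finset.mem_coe.2 (Finset.mem_image_of_mem val h1))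
          (Finset.mem_coe.2 (Finset.mem_image_of_mem val h2))
          (Finset.mem_coe.2 (Finset.mem_image_of_mem val h3)) (by
            rw [hC, hC, hC]
            have := congrArg (fun m => b ^ ((t : ℕ) * L) * m) hacd
            simp only [mul_add] at this
            omega)
        rw [hC, hC] at h4
        exact Nat.eq_of_mul_eq_mul_left hbL (by omega)
      · intro a ha
        rw [Finset.mem_image] at ha
        obtain ⟨u, _, rfl⟩ := ha
        exact val_lt u
    -- the tail
    have htail : n / L * L + n % L = n := Nat.div_add_mod' n L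
    let T : (Fin n → Fin b) → (Fin (n % L) → Fin b) := fun x i =>
      x ⟨n / L * L + i, by have := i.2; omega⟩
    have hinj : Set.InjOn (fun x : Fin n → Fin b =>
        ((fun (t : Fin (n / L)) (i : Fin L) => x (place L t (hblk t) i)), T x))
        ((A.filter (fun x => σ x = τ) : Finset (Fin n → Fin b)) : Set (Fin n → Fin b)) := by
      intro x _ y _ hxy
      simp only [Prod.mk.injEq] at hxy
      funext j
      by_cases hj : (j : ℕ) < n / L * L
      · have hj1 : (j : ℕ) / L < n / L := by
          rw [Nat.div_lt_iff_lt_mul hL]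
          exact hj
        have h1 := congrFun (congrFun hxy.1 ⟨(j : ℕ) / L, hj1⟩) ⟨(j : ℕ) % L, Nat.mod_lt _ hL⟩
        have h2 : place L ((j : ℕ) / L) (hblk ⟨(j : ℕ) / L, hj1⟩)
            ⟨(j : ℕ) % L, Nat.mod_lt _ hL⟩ = j := by
          apply Fin.ext
          show (j : ℕ) / L * L + (j : ℕ) % L = j
          exact Nat.div_add_mod' _ _
        simp only [h2] at h1
        exact h1
      · have h1 := congrFun hxy.2 ⟨(j : ℕ) - n / L * L, by have := j.2; omega⟩
        simp only [T] at h1
        have h2 : (⟨n / L * L + ((j : ℕ) - n / L * L), by have := j.2; omega⟩ : Fin n) = j :=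
          Fin.ext (by simp only; omega)
        rw [h2] at h1
        exact h1
    have hcard := Finset.card_le_card_of_injOn _
      (s := A.filter (fun x => σ x = τ))
      (t := Fintype.piFinset W ×ˢ (Finset.univ : Finset (Fin (n % L) → Fin b)))
      (by
        intro x hx
        rw [Finset.mem_coe, Finset.mem_product]
        refine ⟨?_, Finset.mem_univ _⟩
        rw [Fintype.mem_piFinset]
        intro t
        exact Finset.mem_image_of_mem _ hx) hinj
    refine hcard.trans ?_
    rw [Finset.card_product, Fintype.card_piFinset, Finset.card_univ, Fintype.card_fun,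
      Fintype.card_fin, Fintype.card_fin]
    apply Nat.mul_le_mul_right
    calc ∏ t, (W t).card ≤ ∏ _t : Fin (n / L), rothNumberNat (b ^ L) :=
          Finset.prod_le_prod' fun t _ => hW t
      _ = rothNumberNat (b ^ L) ^ (n / L) := by
          rw [Finset.prod_const, Finset.card_univ, Fintype.card_fin]
  have h := Finset.card_le_mul_card_image_of_maps_to (s := A) (t := Finset.univ) (f := σ)
    (fun _ _ => Finset.mem_univ _) _ hmain
  refine h.trans (le_of_eq ?_)
  rw [Finset.card_univ, Fintype.card_fun, Fintype.card_fin, Fintype.card_fin, mul_pow, pow_succ]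
  ring

end Pool.Agent.TH602.Digits
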